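import Pool.Agent.H.MP_354547_an.D

set_option autoImplicit false

open Set Filter Metric Complex Topology MeasureTheory ContinuousLinearMap
open scoped Convolution

namespace Pool.Agent.H.MP_9a8732_an

open MP_354547_an

lemma cont_mul {a b : EE → ℝ} {U : Set EE} (hU : IsOpen U) (ha : ContinuousOn a U)
    (hb : Continuous b) (hs : tsupport b ⊆ U) : Continuous fun x => a x * b x :=
  continuous_iff_continuousAt.2 fun x => by
    by_cases hx : x ∈ U
    · exact (ha.continuousAt (hU.mem_nhds hx)).mul hb.continuousAt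
    · refine (continuousAt_const (y := (0 : ℝ))).congr ?_
      filter_upwards [notMem_tsupport_iff_eventuallyEq.1 fun h => hx (hs h)] with z hz
      simp [hz]

lemma int_mul {a b : EE → ℝ} {U : Set EE} (hU : IsOpen U) (ha : ContinuousOn a U)
    (hb : Continuous b) (hc : HasCompactSupport b) (hs : tsupport b ⊆ U) :
    Integrable fun x => a x * b x :=
  (cont_mul hU ha hb hs).integrable_of_hasCompactSupport hc.mul_left

lemma pd_ts (k : EE → ℝ) (i : Fin 2) : tsupport (pd i k) ⊆ tsupport k :=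
  tsupport_fderiv_apply_subset ℝ _

lemma ibp {u φ : EE → ℝ} (hu : ContDiffOn ℝ 1 u (ball 0 2)) (h2 : ContDiff ℝ 2 φ)
    (hc : HasCompactSupport φ) (hs : tsupport φ ⊆ ball 0 2) :
    ∫ x, u x * (∑ i : Fin 2, pd i (pd i φ) x) = -∫ x, ∑ i : Fin 2, pd i u x * pd i φ x := by
  have c1 : ∀ i, ContDiff ℝ 1 (pd i φ) := fun i => pd_cd h2 le_rfl i
  have cu : ∀ i, ContinuousOn (pd i u) (ball 0 2) := fun i =>
    (hu.continuousOn_fderiv_of_isOpen isOpen_ball le_rfl).clm_apply continuousOn_const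
  have i1 : ∀ i, Integrable fun x => pd i u x * pd i φ x := fun i =>
    int_mul isOpen_ball (cu i) (c1 i).continuous (pd_cs hc i) ((pd_ts _ i).trans hs)
  have i2 : ∀ i, Integrable fun x => u x * pd i (pd i φ) x := fun i =>
    int_mul isOpen_ball hu.continuousOn (pd_cd (m := 0) (c1 i) le_rfl i).continuous
      (pd_cs (pd_cs hc i) i) ((pd_ts _ i).trans ((pd_ts _ i).trans hs))
  have e : ∀ i, ∫ x, u x * pd i (pd i φ) x = -∫ x, pd i u x * pd i φ x := fun i =>
    integral_mul_fderiv_eq_neg_fderiv_mul_of_integrable (i1 i) (i2 i)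
      (int_mul isOpen_ball hu.continuousOn (c1 i).continuous (pd_cs hc i) ((pd_ts _ i).trans hs))
      (fun x hx => (hu.contDiffAt (isOpen_ball.mem_nhds (hs (pd_ts _ i hx)))).differentiableAt
        one_ne_zero) fun x _ => (c1 i).differentiable one_ne_zero x
  simp only [Fin.sum_univ_two, mul_add]
  rw [integral_add (i2 0) (i2 1), integral_add (i1 0) (i1 1), e, e]
  ring

lemma pd_smul {k : EE → ℝ} (hk : Differentiable ℝ k) (a c : ℝ) (i : Fin 2) :
    pd i (fun t => a * k (c • t)) = fun t => a * c * pd i k (c • t) := by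
  funext t
  simp only [pd]
  have : HasFDerivAt (fun t => a * k (c • t)) _ t :=
    ((hk (c • t)).hasFDerivAt.comp t ((hasFDerivAt_id t).const_smul c)).const_mul a
  rw [this.fderiv]
  simp [mul_assoc]

/-- the rescaled weak equation -/
lemma scale {D : Set EE} {u φ : EE → ℝ}
    (hw : ∀ φ : EE → ℝ, ContDiff ℝ 2 φ → HasCompactSupport φ → tsupport φ ⊆ ball (0 : EE) 2 →
      ∫ x, u x * (∑ i : Fin 2, pd i (pd i φ) x)
        = ∫ x, x 0 * D.indicator (fun _ => (1 : ℝ)) x * φ x)
    (h2 : ContDiff ℝ 2 φ) {M r : ℝ} (hs : tsupport φ ⊆ closedBall 0 M) (hr : 0 < r)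
    (hM : r * M < 2) : ∫ x, u (r • x) / r ^ 3 * (∑ i : Fin 2, pd i (pd i φ) x)
      = ∫ x, x 0 * D.indicator (fun _ => (1 : ℝ)) (r • x) * φ x := by
  have ts : tsupport (fun t => 1 * φ (r⁻¹ • t)) ⊆ closedBall 0 (r * M) := by
    refine closure_minimal (fun t ht => ?_) isClosed_closedBall
    have h1 : r⁻¹ • t ∈ closedBall 0 M := hs (subset_tsupport _ (by simpa using ht))
    rw [mem_closedBall_zero_iff, norm_smul, norm_inv, Real.norm_of_nonneg hr.le,
      inv_mul_le_iff₀ hr] at h1
    exact mem_closedBall_zero_iff.2 h1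
  have h := hw (fun t => 1 * φ (r⁻¹ • t)) (contDiff_const.mul (h2.comp (contDiff_const_smul _)))
    ((isCompact_closedBall _ _).of_isClosed_subset (isClosed_tsupport _) ts)
    (ts.trans (closedBall_subset_ball hM))
  have e : ∀ i, pd i (pd i fun t => 1 * φ (r⁻¹ • t)) =
      fun t => 1 * r⁻¹ * r⁻¹ * pd i (pd i φ) (r⁻¹ • t) := fun i => by
    rw [pd_smul (h2.differentiable two_ne_zero),
      pd_smul ((pd_cd (m := 1) h2 le_rfl i).differentiable one_ne_zero)]
  simp only [e] at h
  have h3 := Measure.integral_comp_smul volume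
    (fun x : EE => u x * ∑ i : Fin 2, 1 * r⁻¹ * r⁻¹ * pd i (pd i φ) (r⁻¹ • x)) r
  have h4 := Measure.integral_comp_smul volume
    (fun x : EE => x 0 * D.indicator (fun _ => (1 : ℝ)) x * (1 * φ (r⁻¹ • x))) r
  rw [h, ← h4] at h3
  simp only [inv_smul_smul₀ hr.ne', PiLp.smul_apply, smul_eq_mul] at h3
  refine mul_left_cancel₀ hr.ne' ?_
  rw [← integral_const_mul, ← integral_const_mul]
  refine Eq.trans ?_ (h3.trans ?_)
  · refine integral_congr_ae (Eventually.of_forall fun x => ?_)
    simp only [← Finset.mul_sum]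
    field_simp
  · exact integral_congr_ae (Eventually.of_forall fun x => by simp only; ring)

/-- unique continuation for continuous weakly harmonic functions -/
lemma uc {h : EE → ℝ} (hc : Continuous h)
    (hw : ∀ φ : EE → ℝ, ContDiff ℝ 2 φ → HasCompactSupport φ →
      ∫ x, h x * (∑ i : Fin 2, pd i (pd i φ) x) = 0)
    {p : EE} (hp : ∀ᶠ x in 𝓝 p, h x = 0) : h = 0 := by
  obtain ⟨δ, δ0, hδ⟩ := Metric.eventually_nhds_iff_ball.1 hp
  let b : ℕ → ContDiffBump (0 : EE) := fun n =>
    ⟨δ / 4 * (1 / (n + 1)), δ / 2 * (1 / (n + 1)), by positivity, by gcongr; norm_num⟩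
  have bo : ∀ n, (b n).rOut ≤ δ / 2 := fun n => mul_le_of_le_one_right (by positivity)
    (by rw [div_le_one (by positivity)]; linarith [Nat.cast_nonneg (α := ℝ) n])
  have bt : Tendsto (fun n => (b n).rOut) atTop (𝓝 0) := by
    simpa [b] using tendsto_one_div_add_atTop_nhds_zero_nat.const_mul (δ / 2)
  suffices ∀ n x, cv h ((b n).normed volume) x = 0 by
    funext x
    refine tendsto_nhds_unique (ContDiffBump.convolution_tendsto_right_of_continuous
      (μ := volume) bt hc x) (tendsto_const_nhds.congr fun n => ?_)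
    have := this n x
    rw [cv_comm] at this
    exact this.symm
  intro n
  set ρ := (b n).normed volume with hρ
  have r2 : ContDiff ℝ 2 ρ := (b n).contDiff_normed (n := 2)
  have rc : HasCompactSupport ρ := (b n).hasCompactSupport_normed
  set k := cv h ρ with hk
  have k2 : ContDiff ℝ 2 k := rc.contDiff_convolution_right (n := 2) _ hc.locallyIntegrable r2
  have ts : ∀ x, tsupport (fun t => ρ (x - t)) ⊆ closedBall x (δ / 2) := fun x => by
    refine closure_minimal (fun t ht => ?_) isClosed_closedBall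
    have h1 : x - t ∈ Function.support ρ := ht
    rw [hρ, (b n).support_normed_eq, mem_ball_zero_iff] at h1
    rw [mem_closedBall, dist_comm, dist_eq_norm]
    linarith [bo n]
  have lap : ∀ x, pd 0 (pd 0 k) x + pd 1 (pd 1 k) x = 0 := fun x => by
    have e1 : ∀ i, pd i (pd i k) = cv h (pd i (pd i ρ)) := fun i => by
      rw [hk, pd_cv hc (r2.of_le one_le_two) rc, pd_cv hc (pd_cd r2 le_rfl i) (pd_cs rc i)]
    have e2 : ∀ i, pd i (pd i fun t => ρ (x - t)) = fun t => pd i (pd i ρ) (x - t) := fun i => by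
      rw [pd_sub (r2.differentiable two_ne_zero), pd_neg,
        pd_sub ((pd_cd (m := 1) r2 le_rfl i).differentiable one_ne_zero)]
      simp
    have cs : HasCompactSupport fun t => ρ (x - t) :=
      (isCompact_closedBall x (δ / 2)).of_isClosed_subset (isClosed_tsupport _) (ts x)
    have h1 := hw (fun t => ρ (x - t)) (r2.comp (contDiff_const.sub contDiff_id)) cs
    have ii : ∀ i, Integrable fun t => h t * pd i (pd i ρ) (x - t) := fun i =>
      (hc.mul ((pd_cd (m := 0) (pd_cd (m := 1) r2 le_rfl i) le_rfl i).continuous.comp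
        (continuous_const.sub continuous_id))).integrable_of_hasCompactSupport
          (HasCompactSupport.mul_left (by have := pd_cs (pd_cs cs i) i; rwa [e2] at this))
    simp only [e2, Fin.sum_univ_two, mul_add] at h1
    rw [integral_add (ii 0) (ii 1)] at h1
    rw [e1, e1]
    exact h1
  have k0 : ∀ x ∈ ball p (δ / 2), k x = 0 := fun x hx => by
    rw [hk, cv, convolution_def]
    refine (integral_congr_ae (Eventually.of_forall fun t => ?_)).trans (integral_zero _ _)
    by_cases ht : ρ (x - t) = 0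
    · simp [ht]
    · have h1 := ts x (subset_tsupport _ ht)
      have h2 : t ∈ ball p δ := by
        rw [mem_closedBall] at h1
        rw [mem_ball] at hx ⊢
        linarith [dist_triangle t x p]
      simp [hδ t h2]
  let q : EE → ℝ := fun x => k x + (x 0) ^ 3 / 6
  have c3 : ∀ x : EE, HasFDerivAt (fun x : EE => (x 0) ^ 3 / 6)
      (((x 0) ^ 2 / 2) • (EuclideanSpace.proj 0 : EE →L[ℝ] ℝ)) x := fun x => by
    have := (((EuclideanSpace.proj 0 : EE →L[ℝ] ℝ).hasFDerivAt (x := x)).pow 3).const_mul (1 / 6 : ℝ)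
    refine (this.congr_fderiv ?_).congr_of_eventuallyEq (Eventually.of_forall fun y => ?_)
    · ext v; simp; ring
    · simp; ring
  have q0 : pd 0 q = fun x => pd 0 k x + (x 0) ^ 2 / 2 := by
    funext x
    have : HasFDerivAt q _ x := (k2.differentiable two_ne_zero x).hasFDerivAt.add (c3 x)
    simp [pd, this.fderiv]
  have q1 : pd 1 q = pd 1 k := by
    funext x
    have : HasFDerivAt q _ x := (k2.differentiable two_ne_zero x).hasFDerivAt.add (c3 x)
    simp [pd, this.fderiv]
  have hol : Differentiable ℂ (HH q) := fun z => by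
    refine holo (k2.add (by fun_prop)) ?_
    rw [q0, q1]
    have h1 := (((EuclideanSpace.proj 0 : EE →L[ℝ] ℝ).hasFDerivAt (x := T0 z)).pow 2).const_mul
      (1 / 2 : ℝ)
    have h2 : HasFDerivAt (fun x => pd 0 k x + (x 0) ^ 2 / 2) _ (T0 z) :=
      (((pd_cd (m := 1) k2 le_rfl 0).differentiable one_ne_zero _).hasFDerivAt.add
        h1).congr_of_eventuallyEq (Eventually.of_forall fun y => by simp; ring)
    have h3 := lap (T0 z)
    rw [pd, h2.fderiv]
    rw [pd] at h3
    simp [T0_0]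
    linarith
  have eH : ∀ z, HH q z = -2 * ((pd 0 k (T0 z) : ℝ) - I * (pd 1 k (T0 z) : ℝ)) := fun z => by
    simp only [HH, q0, q1, T0_0]
    push_cast; ring
  have hz : HH q = 0 := by
    refine (analyticOnNhd_univ_iff_differentiable.2 hol).eq_of_eventuallyEq analyticOnNhd_const
      (z₀ := T0.symm p) ?_
    have : Tendsto T0 (𝓝 (T0.symm p)) (𝓝 p) := by simpa using T0.continuous.tendsto (T0.symm p)
    filter_upwards [this.eventually (ball_mem_nhds p (half_pos δ0))] with z hz
    have e : k =ᶠ[𝓝 (T0 z)] fun _ => 0 := mem_of_superset (isOpen_ball.mem_nhds hz) k0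
    simp [eH, pd, e.fderiv_eq]
  have fd : ∀ x, fderiv ℝ k x = 0 := fun x => by
    have h1 := congrFun hz (T0.symm x)
    rw [eH, T0.apply_symm_apply] at h1
    have h2 := congrArg re h1
    have h3 := congrArg im h1
    simp at h2 h3
    ext v
    rw [show v = v 0 • EuclideanSpace.single 0 (1 : ℝ) + v 1 • EuclideanSpace.single 1 (1 : ℝ) by
      ext i; fin_cases i <;> simp, map_add, map_smul, map_smul]
    simp only [pd] at h2 h3
    simp [h2, h3]
  intro x
  rw [is_const_of_fderiv_eq_zero (k2.differentiable two_ne_zero) fd x p]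
  exact k0 p (mem_ball_self (half_pos δ0))

/-- what every blowup limit satisfies -/
lemma limit {D H N : Set EE} {u v : EE → ℝ} (hD : IsOpen D) (hu : ContinuousOn u (ball 0 2))
    (hw : ∀ φ : EE → ℝ, ContDiff ℝ 2 φ → HasCompactSupport φ → tsupport φ ⊆ ball (0 : EE) 2 →
      ∫ x, u x * (∑ i : Fin 2, pd i (pd i φ) x)
        = ∫ x, x 0 * D.indicator (fun _ => (1 : ℝ)) x * φ x)
    (hH : ∀ x ∈ H, ∀ᶠ t in 𝓝[>] (0 : ℝ), t • x ∈ D)
    (hN : ∀ x ∈ N, ∀ᶠ t in 𝓝[>] (0 : ℝ), t • x ∉ D ∧ u (t • x) = 0)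
    (hae : ∀ᵐ x, x ∈ H ∨ (x ∈ N ∧ x ∉ H)) {r : ℕ → ℝ} (hr : Tendsto r atTop (𝓝[>] 0))
    (hv : TendstoLocallyUniformly (fun n x => u (r n • x) / r n ^ 3) v atTop) :
    Continuous v ∧ (∀ x ∈ N, v x = 0) ∧ ∀ φ : EE → ℝ, ContDiff ℝ 2 φ → HasCompactSupport φ →
      ∫ x, v x * (∑ i : Fin 2, pd i (pd i φ) x)
        = ∫ x, x 0 * H.indicator (fun _ => (1 : ℝ)) x * φ x := by
  have ev : ∀ M : ℝ, ∀ᶠ n in atTop, 0 < r n ∧ r n * M < 2 := fun M => by
    have h1 := (tendsto_nhdsWithin_iff.1 hr).1.mul_const M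
    rw [zero_mul] at h1
    exact (tendsto_nhdsWithin_iff.1 hr).2.and (h1.eventually (gt_mem_nhds two_pos))
  have cn : ∀ M : ℝ, ∀ᶠ n in atTop, ContinuousOn (fun x => u (r n • x) / r n ^ 3) (ball 0 M) :=
    fun M => (ev M).mono fun n hn => by
      refine (hu.comp (continuous_const_smul _).continuousOn fun x hx => ?_).div_const _
      rw [mem_ball_zero_iff] at hx ⊢
      rw [norm_smul, Real.norm_of_nonneg hn.1.le]
      exact (mul_lt_mul_of_pos_left hx hn.1).trans hn.2
  have cv : Continuous v := continuous_iff_continuousAt.2 fun x =>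
    ((hv.tendstoLocallyUniformlyOn (s := ball 0 (‖x‖ + 1))).continuousOn
      (cn _).frequently).continuousAt (isOpen_ball.mem_nhds (by simp))
  have pw : ∀ x, Tendsto (fun n => u (r n • x) / r n ^ 3) atTop (𝓝 (v x)) := fun x =>
    (hv.tendstoLocallyUniformlyOn (s := univ)).tendsto_at (mem_univ x)
  refine ⟨cv, fun x hx => tendsto_nhds_unique (pw x) (tendsto_const_nhds.congr' ?_),
    fun φ h2 hc => ?_⟩
  · filter_upwards [hr.eventually (hN x hx)] with n hn
    simp [hn.2]
  obtain ⟨M, hM⟩ := hc.isCompact.isBounded.subset_ball 0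
  set ψ : EE → ℝ := fun x => ∑ i : Fin 2, pd i (pd i φ) x with hψ
  have ψc : Continuous ψ := continuous_finsetSum _ fun i _ =>
    (pd_cd (m := 0) (pd_cd (m := 1) h2 le_rfl i) le_rfl i).continuous
  have ψs : tsupport ψ ⊆ tsupport φ := closure_minimal (fun x hx => by
    by_contra h
    have : ∀ i, pd i (pd i φ) x = 0 := fun i => image_eq_zero_of_notMem_tsupport fun h' =>
      h (pd_ts _ i (pd_ts _ i h'))
    exact hx (by simp [hψ, this])) (isClosed_tsupport _)
  have ψk : HasCompactSupport ψ := hc.isCompact.of_isClosed_subset (isClosed_tsupport _) ψs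
  have t1 : Tendsto (fun n => ∫ x, u (r n • x) / r n ^ 3 * ψ x) atTop (𝓝 (∫ x, v x * ψ x)) := by
    refine tendsto_integral_filter_of_dominated_convergence (fun x => (|v x| + 1) * |ψ x|)
      ((cn M).mono fun n hn => (cont_mul isOpen_ball hn ψc (ψs.trans hM)).aestronglyMeasurable) ?_
      (((cv.abs.add continuous_const).mul ψc.abs).integrable_of_hasCompactSupport
        ψk.abs.mul_left) (Eventually.of_forall fun x => (pw x).mul_const _)
    filter_upwards [Metric.tendstoUniformlyOn_iff.1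
      (tendstoLocallyUniformly_iff_forall_isCompact.1 hv _ ψk.isCompact) 1 one_pos] with n hn
    refine Eventually.of_forall fun x => ?_
    by_cases hx : x ∈ tsupport ψ
    · rw [norm_mul, Real.norm_eq_abs, Real.norm_eq_abs]
      refine mul_le_mul_of_nonneg_right ?_ (abs_nonneg _)
      have h1 := hn x hx
      rw [Real.dist_eq, abs_sub_comm] at h1
      linarith [abs_sub_abs_le_abs_sub (u (r n • x) / r n ^ 3) (v x)]
    · simp [image_eq_zero_of_notMem_tsupport hx]
  have c0 : Continuous fun x : EE => x 0 := by fun_prop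
  have t2 : Tendsto (fun n => ∫ x : EE, x 0 * D.indicator (fun _ => (1 : ℝ)) (r n • x) * φ x) atTop
      (𝓝 (∫ x, x 0 * H.indicator (fun _ => (1 : ℝ)) x * φ x)) := by
    refine tendsto_integral_filter_of_dominated_convergence (fun x => |x 0| * |φ x|)
      (Eventually.of_forall fun n => ?_)
      (Eventually.of_forall fun n => Eventually.of_forall fun x => ?_)
      ((c0.abs.mul h2.continuous.abs).integrable_of_hasCompactSupport hc.abs.mul_left) ?_
    · exact ((c0.measurable.mul ((measurable_const.indicator hD.measurableSet).comp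
        (continuous_const_smul _).measurable)).mul h2.continuous.measurable).aestronglyMeasurable
    · by_cases hx : r n • x ∈ D
      · simp [hx]
      · simpa [hx] using mul_nonneg (abs_nonneg _) (abs_nonneg _)
    · filter_upwards [hae] with x hx
      refine tendsto_const_nhds.congr' ?_
      rcases hx with hx | hx
      · filter_upwards [hr.eventually (hH x hx)] with n hn
        simp [hx, hn]
      · filter_upwards [hr.eventually (hN x hx.1)] with n hn
        simp [hx.2, hn.1]
  refine tendsto_nhds_unique t1 (t2.congr' ?_)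
  filter_upwards [ev M] with n hn
  exact (scale hw h2 (hM.trans ball_subset_closedBall) hn.1 hn.2).symm

lemma slope {f : ℝ → ℝ} {c : ℝ} (hf : HasDerivAt f c 0) (f0 : f 0 = 0) (a : ℝ) :
    Tendsto (fun t => t⁻¹ * f (t * a)) (𝓝[>] 0) (𝓝 (c * a)) := by
  have h1 : HasDerivAt (fun t => f (t * a)) (c * a) 0 := by
    have := HasDerivAt.comp (h₂ := f) (0 : ℝ) (by simpa using hf)
      ((hasDerivAt_id (0 : ℝ)).mul_const a)
    rw [one_mul] at this
    exact this
  simpa [f0] using h1.tendsto_slope_zero_right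

theorem uniq {D : Set EE} {u : EE → ℝ} (hD : IsOpen D) (h0 : (0 : EE) ∈ frontier D) {ρ : ℝ}
    (hρ : 0 < ρ) (R : EE ≃ₗᵢ[ℝ] EE) {f : ℝ → ℝ} {L : NNReal} (fL : LipschitzWith L f)
    (hf : ∀ x ∈ ball (0 : EE) ρ, (x ∈ D ↔ f ((R x) 0) < (R x) 1))
    (hu : ContDiffOn ℝ 1 u (ball 0 2))
    (hw : ∀ φ : EE → ℝ, ContDiff ℝ 2 φ → HasCompactSupport φ → tsupport φ ⊆ ball (0 : EE) 2 →
      ∫ x, u x * (∑ i : Fin 2, pd i (pd i φ) x)
        = ∫ x, x 0 * D.indicator (fun _ => (1 : ℝ)) x * φ x)
    (hz : ∀ x ∈ ball (0 : EE) 2, x ∉ closure D → u x = 0) {r s : ℕ → ℝ} {v w : EE → ℝ}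
    (hr : Tendsto r atTop (𝓝[>] 0)) (hs : Tendsto s atTop (𝓝[>] 0))
    (hv : TendstoLocallyUniformly (fun n x => u (r n • x) / r n ^ 3) v atTop)
    (hw' : TendstoLocallyUniformly (fun n x => u (s n • x) / s n ^ 3) w atTop) : v = w := by
  have hd := ((main hD h0 hρ R fL hf hu hw hz).differentiableAt one_ne_zero).hasDerivAt
  set c := deriv f 0
  have fc := fL.continuous
  have Rc := R.continuous
  have out : ∀ x ∈ ball (0 : EE) ρ, (R x) 1 < f ((R x) 0) → x ∉ closure D := by
    intro x hx h hc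
    obtain ⟨y, ⟨y1, y2⟩, y3⟩ := _root_.mem_closure_iff.1 hc
      (ball 0 ρ ∩ {x | (R x) 1 < f ((R x) 0)})
      (isOpen_ball.inter (isOpen_lt (by fun_prop) (by fun_prop))) ⟨hx, h⟩
    exact lt_asymm ((hf y y1).1 y3) y2
  have f0 : f 0 = 0 := by
    rcases lt_trichotomy (f 0) 0 with h | h | h
    · exact absurd ((hf 0 (mem_ball_self hρ)).2 (by simpa using h)) (hD.frontier_eq ▸ h0).2
    · exact h
    · exact absurd (frontier_subset_closure h0) (out 0 (mem_ball_self hρ) (by simpa using h))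
  have sm : ∀ (x : EE) (e : ℝ), 0 < e → ∀ᶠ t in 𝓝[>] (0 : ℝ), t • x ∈ ball (0 : EE) e :=
    fun x e he => by
      have : Tendsto (fun t : ℝ => t • x) (𝓝 0) (𝓝 ((0 : ℝ) • x)) :=
        (by fun_prop : Continuous fun t : ℝ => t • x).tendsto 0
      rw [zero_smul] at this
      exact (this.mono_left nhdsWithin_le_nhds).eventually (ball_mem_nhds _ he)
  have hH : ∀ x ∈ {x : EE | c * (R x) 0 < (R x) 1}, ∀ᶠ t in 𝓝[>] (0 : ℝ), t • x ∈ D :=
    fun x hx => by
      filter_upwards [(slope hd f0 ((R x) 0)).eventually (gt_mem_nhds hx), sm x ρ hρ,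
        self_mem_nhdsWithin] with t h1 h2 (h3 : 0 < t)
      rw [inv_mul_lt_iff₀ h3] at h1
      exact (hf _ h2).2 (by simpa using h1)
  have hN : ∀ x ∈ {x : EE | (R x) 1 < c * (R x) 0},
      ∀ᶠ t in 𝓝[>] (0 : ℝ), t • x ∉ D ∧ u (t • x) = 0 := fun x hx => by
    filter_upwards [(slope hd f0 ((R x) 0)).eventually (lt_mem_nhds hx), sm x ρ hρ,
      sm x 2 two_pos, self_mem_nhdsWithin] with t h1 h2 h4 (h3 : 0 < t)
    rw [lt_inv_mul_iff₀ h3] at h1
    have := out _ h2 (by simpa using h1)
    exact ⟨fun h => this (subset_closure h), hz _ h4 this⟩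
  have hae : ∀ᵐ x : EE, x ∈ {x : EE | c * (R x) 0 < (R x) 1} ∨
      (x ∈ {x : EE | (R x) 1 < c * (R x) 0} ∧ x ∉ {x : EE | c * (R x) 0 < (R x) 1}) := by
    let l : EE →ₗ[ℝ] ℝ := ((EuclideanSpace.proj 1 : EE →L[ℝ] ℝ).toLinearMap -
      c • (EuclideanSpace.proj 0 : EE →L[ℝ] ℝ).toLinearMap).comp R.toLinearEquiv.toLinearMap
    have h1 := Measure.addHaar_submodule volume (LinearMap.ker l) fun h => by
      have : R.symm (EuclideanSpace.single 1 1) ∈ LinearMap.ker l := h ▸ Submodule.mem_top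
      simp [l] at this
    filter_upwards [measure_eq_zero_iff_ae_notMem.1 h1] with x hx
    have h2 : (R x) 1 - c * (R x) 0 ≠ 0 := by simpa [l] using hx
    rcases h2.lt_or_gt with h | h
    · exact Or.inr ⟨sub_neg.1 h, not_lt.2 (sub_neg.1 h).le⟩
    · exact Or.inl (sub_pos.1 h)
  obtain ⟨v1, v2, v3⟩ := limit hD hu.continuousOn hw hH hN hae hr hv
  obtain ⟨w1, w2, w3⟩ := limit hD hu.continuousOn hw hH hN hae hs hw'
  refine sub_eq_zero.1 (uc (v1.sub w1) (fun φ h2 hc => ?_)
    (p := R.symm (EuclideanSpace.single 1 (-1))) ?_)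
  · have ii : ∀ {a : EE → ℝ}, Continuous a →
        Integrable fun x => a x * ∑ i : Fin 2, pd i (pd i φ) x := fun {a} ha => by
      simp only [Finset.mul_sum]
      exact integrable_finsetSum _ fun i _ => (ha.mul (pd_cd (m := 0) (pd_cd (m := 1) h2 le_rfl i)
        le_rfl i).continuous).integrable_of_hasCompactSupport (pd_cs (pd_cs hc i) i).mul_left
    simp only [Pi.sub_apply, sub_mul]
    rw [integral_sub (ii v1) (ii w1), v3 φ h2 hc, w3 φ h2 hc, sub_self]
  · have : IsOpen {x : EE | (R x) 1 < c * (R x) 0} := isOpen_lt (by fun_prop) (by fun_prop)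
    filter_upwards [this.mem_nhds (by simp)] with x hx
    simp [v2 x hx, w2 x hx]

end Pool.Agent.H.MP_9a8732_an
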